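import Pool.Agent.Helper65.KPV.St

/-!
# PROJECT KP (MP_26be5b_ag), chapter A part V: module VAN (Vandermonde)
-/

set_option autoImplicit false

namespace Pool.Agent.Helper99.KPV

open Pool.Agent.Helper65.KPV Pool.Agent.Helper5.KPA Pool.Agent.Helper52.KP

/-- MODULE VAN. -/
theorem hVAN : StVAN := by
  intro V _ _ W n x h l hl
  let c : Fin n → ℂ := fun i => ((i : ℕ) : ℂ) + 1
  have hc0 : ∀ i, c i ≠ 0 := fun i => Nat.cast_add_one_ne_zero _
  have hinj : Function.Injective c := by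
    intro i j hij
    have h1 : ((i : ℕ) : ℂ) = ((j : ℕ) : ℂ) := add_right_cancel hij
    exact Fin.ext (Nat.cast_injective h1)
  have hdet : IsUnit (Matrix.vandermonde c).det :=
    isUnit_iff_ne_zero.mpr (Matrix.det_vandermonde_ne_zero_iff.mpr hinj)
  have hinv : (Matrix.vandermonde c)⁻¹ * Matrix.vandermonde c = 1 := Matrix.nonsing_inv_mul _ hdet
  have key : x l = ∑ i : Fin n, (Matrix.vandermonde c)⁻¹ ⟨l, hl⟩ i •
      ∑ k ∈ Finset.range n, c i ^ k • x k := by
    have e1 : ∀ i : Fin n, ∑ k ∈ Finset.range n, c i ^ k • x k = ∑ k : Fin n, c i ^ (k : ℕ) • x k :=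
      fun i => (Fin.sum_univ_eq_sum_range (fun k => c i ^ k • x k) n).symm
    simp only [e1, Finset.smul_sum, smul_smul]
    rw [Finset.sum_comm]
    have e2 : ∀ k : Fin n, ∑ i : Fin n,
        ((Matrix.vandermonde c)⁻¹ ⟨l, hl⟩ i * c i ^ (k : ℕ)) • x k =
        ((1 : Matrix (Fin n) (Fin n) ℂ) ⟨l, hl⟩ k) • x k := by
      intro k
      rw [← Finset.sum_smul, ← hinv, Matrix.mul_apply]
      rfl
    simp only [e2]
    rw [Finset.sum_eq_single (⟨l, hl⟩ : Fin n)]
    · rw [Matrix.one_apply_eq, one_smul]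
    · intro k _ hk
      rw [Matrix.one_apply_ne (Ne.symm hk), zero_smul]
    · intro hk
      exact absurd (Finset.mem_univ _) hk
  rw [key]
  exact W.sum_mem fun i _ => W.smul_mem _ (h (c i) (hc0 i))

end Pool.Agent.Helper99.KPV
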